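import Pool.Agent.Helper40.RS.Gal
import Pool.Agent.Helper42.RD.Goals2

/-!
# Project RD (MP_fc6b1e_nt), packet TRF: transfer of local conditions in an extension of degree
prime to `p`
-/

namespace Pool.Agent.Helper40.RD

open NumberField Polynomial Module IsDedekindDomain
open Pool.Agent.Helper51.RP Pool.Agent.Helper42.RD Pool.Agent.Helper40.RS

variable {M M₁ : Type} [Field M] [NumberField M] [Field M₁] [NumberField M₁] [Algebra M M₁]

theorem valW (W : HeightOneSpectrum (𝓞 M₁)) (x : M) :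
    W.valuation M₁ (algebraMap M M₁ x) =
      (bel M W).valuation M x ^ (bel M W).asIdeal.ramificationIdx' W.asIdeal :=
  (HeightOneSpectrum.valuation_liesOver M₁ (bel M W) W x).symm

theorem ordW (W : HeightOneSpectrum (𝓞 M₁)) (x : M) :
    ordv W (algebraMap M M₁ x) =
      ((bel M W).asIdeal.ramificationIdx' W.asIdeal : ℤ) * ordv (bel M W) x := by
  unfold ordv
  rw [valW, WithZero.log_pow, nsmul_eq_mul]
  ring

theorem bel_of_above {W : HeightOneSpectrum (𝓞 M₁)} {w : HeightOneSpectrum (𝓞 M)}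
    (h : Above W w) : bel M W = w := by
  apply HeightOneSpectrum.ext
  exact h

/-- The residue field part. -/
theorem residue (p : ℕ) (hp : 1 < p) (W : HeightOneSpectrum (𝓞 M₁))
    (hf : (W.asIdeal.inertiaDeg (𝓞 M)).Coprime p) (x : 𝓞 M) (y : 𝓞 M₁)
    (h : algebraMap (𝓞 M) (𝓞 M₁) x * y ^ p - 1 ∈ W.asIdeal) :
    ∃ z : 𝓞 M, x * z ^ p - 1 ∈ (bel M W).asIdeal := by
  have hw : (bel M W).asIdeal.IsMaximal := (bel M W).isMaximal
  have hW : W.asIdeal.IsMaximal := W.isMaximal
  have : W.asIdeal.LiesOver (bel M W).asIdeal := inferInstance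
  let _ : Field (𝓞 M ⧸ (bel M W).asIdeal) := Ideal.Quotient.field _
  have hfin : W.asIdeal.inertiaDeg (𝓞 M) =
      finrank (𝓞 M ⧸ (bel M W).asIdeal) (𝓞 M₁ ⧸ W.asIdeal) := by
    rw [← Ideal.inertiaDeg'_eq_inertiaDeg (bel M W).asIdeal W.asIdeal,
      Ideal.inertiaDeg'_algebraMap]
  set f := W.asIdeal.inertiaDeg (𝓞 M) with hfdef
  have h1 : algebraMap (𝓞 M ⧸ (bel M W).asIdeal) (𝓞 M₁ ⧸ W.asIdeal)
      (Ideal.Quotient.mk _ x) * (Ideal.Quotient.mk W.asIdeal y) ^ p = 1 := by
    have h2 : algebraMap (𝓞 M ⧸ (bel M W).asIdeal) (𝓞 M₁ ⧸ W.asIdeal)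
        (Ideal.Quotient.mk _ x) = Ideal.Quotient.mk W.asIdeal (algebraMap (𝓞 M) (𝓞 M₁) x) := rfl
    rw [h2, ← map_pow, ← map_mul, ← map_one (Ideal.Quotient.mk W.asIdeal), Ideal.Quotient.eq]
    exact h
  have h3 := congrArg (Algebra.norm (𝓞 M ⧸ (bel M W).asIdeal)) h1
  rw [map_mul, map_pow, map_one, Algebra.norm_algebraMap, ← hfin] at h3
  obtain ⟨m, -, hm⟩ := Nat.exists_mul_mod_eq_one_of_coprime hf hp
  obtain ⟨z, hz⟩ := Ideal.Quotient.mk_surjective
    ((Ideal.Quotient.mk (bel M W).asIdeal x) ^ (f * m / p) *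
      (Algebra.norm (𝓞 M ⧸ (bel M W).asIdeal) (Ideal.Quotient.mk W.asIdeal y)) ^ m)
  refine ⟨z, ?_⟩
  rw [← Ideal.Quotient.eq, map_mul, map_pow, hz, map_one]
  have h4 : f * m = p * (f * m / p) + 1 := by
    conv_lhs => rw [← Nat.div_add_mod (f * m) p]
    rw [hm]
  set X := Ideal.Quotient.mk (bel M W).asIdeal x with hX
  set Nn := Algebra.norm (𝓞 M ⧸ (bel M W).asIdeal) (Ideal.Quotient.mk W.asIdeal y) with hNn
  calc X * (X ^ (f * m / p) * Nn ^ m) ^ p = X ^ (p * (f * m / p) + 1) * (Nn ^ p) ^ m := by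
        rw [mul_pow, ← pow_mul, ← pow_mul, ← pow_mul, pow_succ, mul_comm (f * m / p) p,
          mul_comm m p]
        ring
    _ = (X ^ f * Nn ^ p) ^ m := by rw [← h4, mul_pow, ← pow_mul X f m]
    _ = 1 := by rw [h3, one_pow]

theorem e_trf : E_TRF := by
  intro p hpF M M₁ _ _ _ _ _ _ hcop W w hab
  obtain rfl := bel_of_above hab
  have hp1 : 1 < p := hpF.out.one_lt
  have hp0 : p ≠ 0 := hpF.out.ne_zero
  set w := bel M W with hwdef
  have hefg := efg (K := M) W
  set e := (bel M W).asIdeal.ramificationIdx' W.asIdeal with hedef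
  have he' : e = W.asIdeal.ramificationIdx (𝓞 M) :=
    Ideal.ramificationIdx'_eq_ramificationIdx _ _ (bel M W).ne_bot
  have hedvd : e ∣ finrank M M₁ := by
    rw [← hefg, he']
    exact ⟨((bel M W).asIdeal.primesOver (𝓞 M₁)).ncard * W.asIdeal.inertiaDeg (𝓞 M), by ring⟩
  have hfdvd : W.asIdeal.inertiaDeg (𝓞 M) ∣ finrank M M₁ := by
    rw [← hefg]
    exact Dvd.dvd.mul_left (Dvd.intro_left _ rfl) _
  have hecop : e.Coprime p := Nat.Coprime.coprime_dvd_left hedvd hcop
  have hfcop : (W.asIdeal.inertiaDeg (𝓞 M)).Coprime p := Nat.Coprime.coprime_dvd_left hfdvd hcop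
  have he0 : e ≠ 0 := by
    intro h0
    rw [h0] at hecop
    have := (Nat.coprime_zero_left p).1 hecop
    omega
  have hdvd : ∀ t : ℤ, (p : ℤ) ∣ e * t ↔ (p : ℤ) ∣ t := by
    intro t
    refine ⟨fun h => ?_, fun h => Dvd.dvd.mul_left h _⟩
    exact (Nat.Coprime.isCoprime hecop.symm).dvd_of_dvd_mul_left h
  refine ⟨fun x => ?_, fun x => ⟨?_, ?_⟩⟩
  · rw [ordW W x]
    exact hdvd _
  · -- from above to below
    rintro ⟨y, hy⟩
    have hx0 : x ≠ 0 := by
      rintro rfl
      rw [map_zero, zero_mul, zero_sub, Valuation.map_neg, map_one] at hy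
      exact lt_irrefl _ hy
    have hxy : W.valuation M₁ (algebraMap M M₁ x * y ^ p) = 1 := by
      have h1 := Valuation.map_eq_of_sub_lt (W.valuation M₁) (x := 1)
        (y := algebraMap M M₁ x * y ^ p) (by rw [map_one]; exact hy)
      rw [h1, map_one]
    have hy0 : y ≠ 0 := by
      rintro rfl
      rw [zero_pow hp0, mul_zero, map_zero] at hxy
      exact zero_ne_one hxy
    have hvx : w.valuation M x ≠ 0 := (Valuation.ne_zero_iff _).2 hx0
    have hvy : W.valuation M₁ y ≠ 0 := (Valuation.ne_zero_iff _).2 hy0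
    have hvxW : W.valuation M₁ (algebraMap M M₁ x) ≠ 0 := by
      rw [valW]
      exact pow_ne_zero _ hvx
    have hlog := congrArg WithZero.log hxy
    rw [map_mul, map_pow, WithZero.log_mul hvxW (pow_ne_zero _ hvy), WithZero.log_pow, valW,
      WithZero.log_pow, WithZero.log_one, nsmul_eq_mul, nsmul_eq_mul] at hlog
    have hdiv : (p : ℤ) ∣ WithZero.log (w.valuation M x) := by
      rw [← hdvd]
      refine ⟨-WithZero.log (W.valuation M₁ y), ?_⟩
      linarith
    obtain ⟨n, hn⟩ := hdiv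
    obtain ⟨c, hc⟩ := HeightOneSpectrum.valuation_surjective (K := M) w (WithZero.exp n)
    have hc0 : c ≠ 0 := by
      intro h0
      rw [h0, map_zero] at hc
      exact WithZero.exp_ne_zero hc.symm
    have hvx2 : w.valuation M x = WithZero.exp n ^ p := by
      rw [← WithZero.exp_log hvx, hn, ← WithZero.exp_nsmul, nsmul_eq_mul]
    -- `x'`
    set x' : M := x * (c⁻¹) ^ p with hx'
    have hvx' : w.valuation M x' = 1 := by
      rw [hx', map_mul, map_pow, map_inv₀, hc, hvx2, inv_pow, mul_inv_cancel₀]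
      exact pow_ne_zero _ WithZero.exp_ne_zero
    set y' : M₁ := y * algebraMap M M₁ c with hy'
    have hxy' : algebraMap M M₁ x' * y' ^ p = algebraMap M M₁ x * y ^ p := by
      have hc1 : algebraMap M M₁ c ≠ 0 := by simpa using hc0
      rw [hx', hy', map_mul, map_pow, map_inv₀, mul_pow, inv_pow]
      field_simp
    have hvxW' : W.valuation M₁ (algebraMap M M₁ x') = 1 := by
      rw [valW]
      show (w.valuation M x') ^ _ = 1
      rw [hvx', one_pow]
    have hvy' : W.valuation M₁ y' = 1 := by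
      have h1 := hxy
      rw [← hxy', map_mul, hvxW', one_mul, map_pow] at h1
      exact (pow_eq_one_iff.1 h1).resolve_right hp0
    -- approximation
    obtain ⟨x2, hx2⟩ := HeightOneSpectrum.exists_valuation_sub_lt_of_integer w hvx'.le 1
    obtain ⟨y2, hy2⟩ := HeightOneSpectrum.exists_valuation_sub_lt_of_integer W hvy'.le 1
    rw [Units.val_one] at hx2 hy2
    have hbig : algebraMap (𝓞 M) (𝓞 M₁) x2 * y2 ^ p - 1 ∈ W.asIdeal := by
      refine (HeightOneSpectrum.valuation_lt_one_iff_mem (K := M₁) W _).1 ?_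
      show W.valuation M₁ (algebraMap (𝓞 M₁) M₁ (algebraMap (𝓞 M) (𝓞 M₁) x2 * y2 ^ p - 1)) < 1
      rw [map_sub, map_mul, map_pow, map_one]
      have e1 : algebraMap (𝓞 M₁) M₁ (algebraMap (𝓞 M) (𝓞 M₁) x2) =
          algebraMap M M₁ (algebraMap (𝓞 M) M x2) := by
        rw [← IsScalarTower.algebraMap_apply, ← IsScalarTower.algebraMap_apply]
      rw [e1]
      set X2 := algebraMap M M₁ (algebraMap (𝓞 M) M x2) with hX2
      set Y2 := algebraMap (𝓞 M₁) M₁ y2 with hY2
      have d1 : W.valuation M₁ (X2 - algebraMap M M₁ x') < 1 := by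
        rw [hX2, ← map_sub, valW]
        exact pow_lt_one₀ zero_le' hx2 he0
      have vY2 : W.valuation M₁ Y2 ≤ 1 := W.valuation_le_one y2
      have d2 : W.valuation M₁ (Y2 ^ p - y' ^ p) < 1 := by
        rw [← (Commute.all Y2 y').mul_geom_sum₂ p, map_mul]
        refine mul_lt_one_of_lt_of_le hy2 ?_
        refine Valuation.map_sum_le _ fun i _ => ?_
        rw [map_mul, map_pow, map_pow, hvy', one_pow, mul_one]
        exact pow_le_one₀ zero_le' vY2
      have e2 : X2 * Y2 ^ p - 1 = (X2 - algebraMap M M₁ x') * Y2 ^ p +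
          (algebraMap M M₁ x' * (Y2 ^ p - y' ^ p) + (algebraMap M M₁ x * y ^ p - 1)) := by
        rw [← hxy']
        ring
      rw [e2]
      refine Valuation.map_add_lt _ ?_ (Valuation.map_add_lt _ ?_ hy)
      · rw [map_mul, map_pow]
        exact mul_lt_one_of_lt_of_le d1 (pow_le_one₀ zero_le' vY2)
      · rw [map_mul, hvxW', one_mul]
        exact d2
    obtain ⟨z, hz⟩ := residue p hp1 W hfcop x2 y2 hbig
    have hz : w.valuation M (algebraMap (𝓞 M) M (x2 * z ^ p - 1)) < 1 :=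
      (HeightOneSpectrum.valuation_lt_one_iff_mem (K := M) w _).2 hz
    rw [map_sub, map_mul, map_pow, map_one] at hz
    refine ⟨c⁻¹ * algebraMap (𝓞 M) M z, ?_⟩
    have e3 : x * (c⁻¹ * algebraMap (𝓞 M) M z) ^ p - 1 =
        (algebraMap (𝓞 M) M x2 * algebraMap (𝓞 M) M z ^ p - 1) -
          (algebraMap (𝓞 M) M x2 - x') * algebraMap (𝓞 M) M z ^ p := by
      rw [hx', mul_pow]
      ring
    rw [e3]
    refine Valuation.map_sub_lt _ hz ?_
    rw [map_mul, map_pow]
    exact mul_lt_one_of_lt_of_le hx2 (pow_le_one₀ zero_le' (w.valuation_le_one z))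
  · rintro ⟨y, hy⟩
    refine ⟨algebraMap M M₁ y, ?_⟩
    rw [← map_pow, ← map_mul, ← map_one (algebraMap M M₁), ← map_sub, valW]
    exact pow_lt_one₀ zero_le' hy he0

end Pool.Agent.Helper40.RD
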